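import Mathlib

namespace Pool.Agent.Results.MP_e0279d_an.Q1

open Polynomial

/-- Left side of equation `(*)` for a polynomial `E`. -/
noncomputable def heun (l μ lam : ℂ) (E : ℂ[X]) : ℂ[X] :=
  X ^ 2 * derivative (derivative E) + (C (1 - l) * X + C μ * (1 - X ^ 2)) * derivative E +
    (C lam + C (μ * (l - 1)) * X) * E

/-- The `A` for which `(*)` has a nonzero polynomial solution at `(B, A) = (l ω, A)`. -/
def S (ω : ℝ) (l : ℕ) : Set ℝ :=
  {A | ∃ E ≠ 0, heun l (A / (2 * ω)) (1 / (4 * ω ^ 2) - (A / (2 * ω)) ^ 2) E = 0}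

lemma co (l μ lam : ℂ) (E : ℂ[X]) : (heun l μ lam E).coeff 0 = lam * E.coeff 0 + μ * E.coeff 1 ∧
    ∀ k : ℕ, (heun l μ lam E).coeff (k + 1) = ((k + 1) * (k + 1 - l) + lam) * E.coeff (k + 1) +
      μ * (k + 2) * E.coeff (k + 2) + μ * (l - (k + 1)) * E.coeff k := by
  simp only [heun, add_mul, mul_sub, sub_mul, mul_assoc, sq, coeff_add, coeff_sub, coeff_C_mul, one_mul, mul_one]
  refine ⟨by simp [coeff_derivative, add_comm], fun k => ?_⟩
  rcases k with _ | k <;> simp [coeff_derivative, coeff_X_mul] <;> ring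

lemma deg {l : ℕ} {μ lam : ℂ} {E : ℂ[X]} (m : μ ≠ 0) (h : heun l μ lam E = 0) (e : E ≠ 0) :
    l = E.natDegree + 1 := by
  have := (co l μ lam E).2 E.natDegree
  rw [h, coeff_natDegree_succ_eq_zero, coeff_eq_zero_of_natDegree_lt (n := E.natDegree + 2) (by omega)] at this
  simp [m, e, sub_eq_zero] at this
  exact_mod_cast this

theorem result : IsGreatest (S 4 1) 1 ∧ IsGreatest (S 4 2) 3 ∧ 5 ∉ S 4 3 ∧
    ∀ A : ℕ → ℝ, (∀ l ≥ 1, IsGreatest (S 4 l) (A l)) →
      ¬ Collinear ℝ {p : ℝ × ℝ | ∃ l : ℕ, 1 ≤ l ∧ p = ((l : ℝ) * 4, A l)} := by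
  have m {A : ℝ} (h : 0 < A) : (A / (2 * (4 : ℝ)) : ℂ) ≠ 0 := by simp [h.ne']
  have lc {E : ℂ[X]} {n} (e : E ≠ 0) (h : n + 1 = E.natDegree + 1) : E.coeff n ≠ 0 ∧ E.coeff (n + 1) = 0 := by
    obtain rfl := Nat.succ_injective h
    exact ⟨leadingCoeff_ne_zero.2 e, coeff_natDegree_succ_eq_zero⟩
  have a : IsGreatest (S 4 1) 1 := by
    refine ⟨⟨1, one_ne_zero, by simp [heun, -map_mul, -map_pow, -map_sub, -map_div₀, -map_inv₀]; norm_num⟩, fun A ⟨E, e, h⟩ => not_lt.1 fun g => ?_⟩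
    obtain ⟨p, q⟩ := lc e (deg (m (by linarith)) h e)
    have := (congrArg (coeff · 0) h).symm.trans (co ..).1
    rw [q, mul_zero, add_zero, coeff_zero, zero_eq_mul, or_iff_left p] at this
    norm_cast at this; nlinarith
  have b : IsGreatest (S 4 2) 3 := by
    refine ⟨⟨3 + X, fun h => by simpa using congrArg (coeff · 1) h, ext fun k => ?_⟩,
      fun A ⟨E, e, h⟩ => not_lt.1 fun g => ?_⟩
    · rcases k with _ | _ | _ | k <;> simp [(co ..).1, (co ..).2, coeff_X, ← C_ofNat, coeff_C] <;> norm_num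
    obtain ⟨p, q⟩ := lc e (deg (m (by linarith)) h e)
    have u := (congrArg (coeff · 0) h).symm.trans (co ..).1
    have v := (congrArg (coeff · 1) h).symm.trans ((co ..).2 0)
    rw [q] at v
    have : ((((A ^ 2 - 1) ^ 2 - 64 : ℝ)) : ℂ) * E.coeff 1 = 0 := by
      simp only [coeff_zero] at u v; push_cast at *
      linear_combination 512 * A * u - 64 * (1 - A ^ 2) * v
    rw [mul_eq_zero, or_iff_left p] at this
    norm_cast at this; nlinarith [mul_pos (show 0 < A ^ 2 - 9 by nlinarith) (show 0 < A ^ 2 + 7 by positivity)]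
  have c : 5 ∉ S 4 3 := fun ⟨E, e, h⟩ => by
    obtain ⟨p, q⟩ := lc e (deg (m (by norm_num)) h e)
    have u := (congrArg (coeff · 0) h).symm.trans (co ..).1
    have v := (congrArg (coeff · 1) h).symm.trans ((co ..).2 0)
    have w := (congrArg (coeff · 2) h).symm.trans ((co ..).2 1)
    rw [q] at w
    simp only [coeff_zero] at u v w; push_cast at *
    exact p (by linear_combination (-400 / 17) * u - (120 / 17) * v - 56 / 17 * w)
  refine ⟨a, b, c, fun A h g => c ?_⟩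
  have e1 := (h 1 le_rfl).unique a
  have e2 := (h 2 one_le_two).unique b
  obtain ⟨v, hv⟩ := (collinear_iff_of_mem (p₀ := (((1 : ℕ) : ℝ) * 4, A 1)) (by exact ⟨1, le_rfl, rfl⟩)).1 g
  obtain ⟨r, hr⟩ := hv _ ⟨2, one_le_two, rfl⟩
  obtain ⟨s, hs⟩ := hv _ ⟨3, by norm_num, rfl⟩
  simp only [Prod.ext_iff, e1, e2] at hr hs
  simp at hr hs
  have : s = 2 * r := mul_right_cancel₀ (b := v.1) (fun z => by rw [z] at hr; norm_num at hr) (by linarith)
  rw [show (5 : ℝ) = A 3 by rw [hs.2, this]; linarith]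
  exact (h 3 (by norm_num)).1

end Pool.Agent.Results.MP_e0279d_an.Q1
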